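import Mathlib.Data.Nat.Bitwise
import Mathlib.Tactic

/-!
# Truth tables of `2 ^ d` bits

`P d v` has bit `s` set (`s < 2 ^ d`) exactly when bit `v` of `s` is set; `one d` has all the bits
`s < 2 ^ d` set.  Boolean combinations and shifts of these numbers evaluate a recursion at all
`2 ^ d` positions of a game at the same time.
-/

set_option autoImplicit false

namespace Pool.Agent.Q261.Bulk

/-- all positions -/
def one (d : ℕ) : ℕ := 2 ^ (2 ^ d) - 1

/-- the positions with bit `v` set -/
def P : ℕ → ℕ → ℕ
  | 0, _ => 0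
  | d + 1, v => if v = d then one d <<< (2 ^ d) else P d v ||| (P d v <<< (2 ^ d))

theorem testBit_one (d s : ℕ) : (one d).testBit s = decide (s < 2 ^ d) := by
  unfold one
  exact Nat.testBit_two_pow_sub_one _ _

theorem testBit_top {d s : ℕ} (h1 : 2 ^ d ≤ s) (h2 : s < 2 ^ (d + 1)) : s.testBit d = true := by
  obtain ⟨r, rfl⟩ := Nat.exists_eq_add_of_le h1
  rw [Nat.testBit_two_pow_add_eq, Nat.testBit_lt_two_pow (by rw [pow_succ] at h2; omega)]
  rfl

theorem testBit_P : ∀ d v s : ℕ,
    (P d v).testBit s = (decide (s < 2 ^ d) && (decide (v < d) && s.testBit v)) := by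
  intro d
  induction d with
  | zero =>
    intro v s
    simp [P]
  | succ d ih =>
    intro v s
    rw [P]
    by_cases hv : v = d
    · subst hv
      rw [if_pos rfl, Nat.testBit_shiftLeft, testBit_one]
      have h1 : decide (v < v + 1) = true := by simp
      rw [h1, Bool.true_and]
      by_cases hs : 2 ^ v ≤ s
      · by_cases hs2 : s < 2 ^ (v + 1)
        · rw [testBit_top hs hs2]
          have h3 : s - 2 ^ v < 2 ^ v := by rw [pow_succ] at hs2; omega
          simp [hs, hs2, h3]
        · have h3 : ¬ (s - 2 ^ v < 2 ^ v) := by rw [pow_succ] at hs2; omega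
          simp [hs2, h3]
      · have h3 : s.testBit v = false := Nat.testBit_lt_two_pow (by omega)
        simp [hs, h3]
    · rw [if_neg hv, Nat.testBit_or, Nat.testBit_shiftLeft, ih, ih]
      have h1 : decide (v < d + 1) = decide (v < d) := by
        rw [decide_eq_decide]; omega
      rw [h1]
      by_cases hvd : v < d
      · by_cases hs : 2 ^ d ≤ s
        · obtain ⟨r, rfl⟩ := Nat.exists_eq_add_of_le hs
          rw [Nat.testBit_two_pow_add_gt hvd]
          have h2 : ¬ (2 ^ d + r < 2 ^ d) := by omega
          have h3 : 2 ^ d + r - 2 ^ d = r := by omega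
          have h4 : decide (2 ^ d + r < 2 ^ (d + 1)) = decide (r < 2 ^ d) := by
            rw [decide_eq_decide, pow_succ]; omega
          rw [h3, h4]
          simp
        · have h2 : s < 2 ^ d := by omega
          have h3 : s < 2 ^ (d + 1) := by rw [pow_succ]; omega
          simp [hs, h2, h3]
      · simp [hvd]

/-- the complement -/
def compl (d x : ℕ) : ℕ := one d ^^^ x

theorem testBit_compl {d s : ℕ} (x : ℕ) (hs : s < 2 ^ d) :
    (compl d x).testBit s = !(x.testBit s) := by
  unfold compl
  rw [Nat.testBit_xor, testBit_one, decide_eq_true hs, Bool.true_xor]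

/-- union of a list of tables -/
def orL (l : List ℕ) : ℕ := l.foldr (fun a b => a ||| b) 0

theorem testBit_orL (s : ℕ) : ∀ l : List ℕ, (orL l).testBit s = l.any (fun x => x.testBit s) := by
  intro l
  induction l with
  | nil => simp [orL]
  | cons a l ih =>
    rw [List.any_cons, ← ih]
    show (a ||| orL l).testBit s = _
    rw [Nat.testBit_or]

/-- intersection of a list of tables -/
def andL (d : ℕ) (l : List ℕ) : ℕ := l.foldr (fun a b => a &&& b) (one d)

theorem testBit_andL {d s : ℕ} (hs : s < 2 ^ d) :
    ∀ l : List ℕ, (andL d l).testBit s = l.all (fun x => x.testBit s) := by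
  intro l
  induction l with
  | nil => simp [andL, testBit_one, hs]
  | cons a l ih =>
    rw [List.all_cons, ← ih]
    show (a &&& andL d l).testBit s = _
    rw [Nat.testBit_and]

theorem add_eq_or {s i : ℕ} (h : s.testBit i = false) : 2 ^ i + s = s ||| 2 ^ i := by
  apply Nat.eq_of_testBit_eq
  intro j
  rw [Nat.testBit_or, Nat.testBit_two_pow]
  rcases lt_trichotomy i j with h1 | rfl | h1
  · -- high bits
    have key : (2 ^ i + s) / 2 ^ (i + 1) = s / 2 ^ (i + 1) := by
      have h2 : s % 2 ^ (i + 1) < 2 ^ i := by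
        have h3 : (s % 2 ^ (i + 1)).testBit i = false := by
          rw [Nat.testBit_mod_two_pow, h]; simp
        by_contra hcon
        push Not at hcon
        have := testBit_top hcon (Nat.mod_lt _ (by positivity))
        rw [h3] at this
        exact Bool.false_ne_true this
      have h4 := Nat.div_add_mod s (2 ^ (i + 1))
      have hm : 2 ^ (i + 1) = 2 * 2 ^ i := by rw [pow_succ]; ring
      have h7 : (2 ^ i + s % 2 ^ (i + 1)) / 2 ^ (i + 1) = 0 := Nat.div_eq_of_lt (by omega)
      have h5 : 2 ^ i + s = 2 ^ (i + 1) * (s / 2 ^ (i + 1)) + (2 ^ i + s % 2 ^ (i + 1)) := by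
        omega
      calc (2 ^ i + s) / 2 ^ (i + 1)
          = (2 ^ (i + 1) * (s / 2 ^ (i + 1)) + (2 ^ i + s % 2 ^ (i + 1))) / 2 ^ (i + 1) := by
            rw [← h5]
        _ = s / 2 ^ (i + 1) + (2 ^ i + s % 2 ^ (i + 1)) / 2 ^ (i + 1) := by
            rw [Nat.mul_add_div (by positivity)]
        _ = s / 2 ^ (i + 1) := by rw [h7, add_zero]
    have h6 : ∀ x : ℕ, x.testBit j = (x / 2 ^ (i + 1)).testBit (j - (i + 1)) := by
      intro x
      rw [Nat.testBit_div_two_pow]
      congr 1
      omega
    rw [h6 (2 ^ i + s), key, ← h6 s]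
    have : ¬ (i = j) := by omega
    simp [this]
  · rw [Nat.testBit_two_pow_add_eq, h]
    simp
  · rw [Nat.testBit_two_pow_add_gt h1]
    have : ¬ (i = j) := by omega
    simp [this]

/-- moving to `s ||| 2 ^ i` is a shift of the table -/
theorem testBit_shift {s i : ℕ} (x : ℕ) (h : s.testBit i = false) :
    (x >>> (2 ^ i)).testBit s = x.testBit (s ||| 2 ^ i) := by
  rw [Nat.testBit_shiftRight, add_eq_or h]

end Pool.Agent.Q261.Bulk
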