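import Mathlib.Combinatorics.SimpleGraph.Acyclic
import Mathlib.Tactic

/-!
# Subtrees containing a given vertex and parent functions
-/

set_option autoImplicit false

namespace Pool.Agent.Q261.Subtrees

open SimpleGraph

variable {V : Type} {G : SimpleGraph V} {r : V}

/-- `f` sends each vertex of a subtree other than the root `r` to its parent, and every other
vertex to `none` -/
structure IsPF (G : SimpleGraph V) (r : V) (f : V → Option V) : Prop where
  root : f r = none
  adj : ∀ v u, f v = some u → G.Adj v u
  mem : ∀ v u, f v = some u → u = r ∨ f u ≠ none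
  rank : ∃ ρ : V → ℕ, ∀ v u, f v = some u → ρ u < ρ v

/-- the subtree of a parent function -/
def toSub {f : V → Option V} (h : IsPF G r f) : G.Subgraph where
  verts := {v | v = r ∨ f v ≠ none}
  Adj a b := f a = some b ∨ f b = some a
  adj_sub := by
    rintro a b (h1 | h1)
    · exact h.adj a b h1
    · exact (h.adj b a h1).symm
  edge_vert := by
    rintro a b (h1 | h1)
    · right; rw [h1]; simp
    · exact h.mem b a h1
  symm := ⟨by
    rintro a b (h1 | h1)
    · exact Or.inr h1
    · exact Or.inl h1⟩

theorem mem_toSub {f : V → Option V} (h : IsPF G r f) {v : V} :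
    v ∈ (toSub h).verts ↔ v = r ∨ f v ≠ none := Iff.rfl

theorem toSub_connected {f : V → Option V} (h : IsPF G r f) : (toSub h).coe.Connected := by
  obtain ⟨ρ, hρ⟩ := h.rank
  have hr : r ∈ (toSub h).verts := Or.inl rfl
  have key : ∀ n : ℕ, ∀ v : (toSub h).verts, ρ v.1 = n → (toSub h).coe.Reachable v ⟨r, hr⟩ := by
    intro n
    induction n using Nat.strong_induction_on with
    | _ n ih =>
      rintro ⟨v, hv⟩ hn
      rcases hv with rfl | hv'
      · exact Reachable.refl _
      · obtain ⟨u, hu⟩ := Option.ne_none_iff_exists'.1 hv'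
        have hu' : u ∈ (toSub h).verts := h.mem v u hu
        have h1 := ih (ρ u) (by rw [← hn]; exact hρ v u hu) ⟨u, hu'⟩ rfl
        have h2 : (toSub h).coe.Adj ⟨v, Or.inr hv'⟩ ⟨u, hu'⟩ := Or.inl hu
        exact h2.reachable.trans h1
  have : Nonempty (toSub h).verts := ⟨⟨r, hr⟩⟩
  exact ⟨fun a b => (key _ a rfl).trans (key _ b rfl).symm⟩

theorem toSub_isTree [Finite V] {f : V → Option V} (h : IsPF G r f) : (toSub h).coe.IsTree := by
  classical
  rw [isTree_iff_connected_and_card]
  refine ⟨toSub_connected h, ?_⟩
  obtain ⟨ρ, hρ⟩ := h.rank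
  have hr : r ∈ (toSub h).verts := Or.inl rfl
  let r' : (toSub h).verts := ⟨r, hr⟩
  have hex : ∀ w : {w : (toSub h).verts // w ≠ r'}, ∃ u, f w.1.1 = some u := by
    rintro ⟨⟨v, hv⟩, hne⟩
    rcases hv with rfl | hv'
    · exact absurd rfl hne
    · exact Option.ne_none_iff_exists'.1 hv'
  choose g hg using hex
  let e : {w : (toSub h).verts // w ≠ r'} → (toSub h).coe.edgeSet := fun w =>
    ⟨s(w.1, ⟨g w, h.mem _ _ (hg w)⟩), by
      rw [mem_edgeSet]
      exact Or.inl (hg w)⟩
  have he : Function.Bijective e := by
    constructor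
    · intro a b hab
      have h1 : s(a.1, (⟨g a, h.mem _ _ (hg a)⟩ : (toSub h).verts)) =
          s(b.1, ⟨g b, h.mem _ _ (hg b)⟩) := congrArg Subtype.val hab
      rw [Sym2.eq_iff] at h1
      rcases h1 with ⟨h1, -⟩ | ⟨h1, h2⟩
      · exact Subtype.ext h1
      · exfalso
        have h3 : a.1.1 = g b := congrArg Subtype.val h1
        have h4 : g a = b.1.1 := congrArg Subtype.val h2
        have h5 := hρ _ _ (hg a)
        have h6 := hρ _ _ (hg b)
        rw [h4] at h5
        rw [← h3] at h6
        omega
    · rintro ⟨s, hs⟩
      induction s using Sym2.ind with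
      | _ a b =>
        rw [mem_edgeSet] at hs
        rcases hs with hs | hs
        · have hne : a ≠ r' := by
            rintro rfl
            rw [show f r = none from h.root] at hs
            cases hs
          refine ⟨⟨a, hne⟩, ?_⟩
          apply Subtype.ext
          change s(a, _) = s(a, b)
          congr 1
          apply Subtype.ext
          have := hg ⟨a, hne⟩
          rw [hs] at this
          exact (Option.some.inj this).symm
        · have hne : b ≠ r' := by
            rintro rfl
            rw [show f r = none from h.root] at hs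
            cases hs
          refine ⟨⟨b, hne⟩, ?_⟩
          apply Subtype.ext
          change s(b, _) = s(a, b)
          rw [Sym2.eq_swap]
          congr 1
          apply Subtype.ext
          have := hg ⟨b, hne⟩
          rw [hs] at this
          exact (Option.some.inj this).symm
  rw [← Nat.card_eq_of_bijective e he]
  have : Nat.card {w : (toSub h).verts // w ≠ r'} + 1 = Nat.card (toSub h).verts := by
    have := Fintype.ofFinite (toSub h).verts
    rw [Nat.card_eq_fintype_card, Nat.card_eq_fintype_card, Fintype.card_subtype_compl,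
      Fintype.card_subtype_eq]
    have : 0 < Fintype.card (toSub h).verts := Fintype.card_pos_iff.2 ⟨r'⟩
    omega
  exact this

theorem toSub_injective {f f' : V → Option V} (h : IsPF G r f) (h' : IsPF G r f')
    (heq : toSub h = toSub h') : f = f' := by
  obtain ⟨ρ, hρ⟩ := h.rank
  have key : ∀ n : ℕ, ∀ v, ρ v = n → f v = f' v := by
    intro n
    induction n using Nat.strong_induction_on with
    | _ n ih =>
      intro v hv
      by_cases hr : v = r
      · rw [hr, h.root, h'.root]
      · have hverts : f v ≠ none ↔ f' v ≠ none := by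
          have : v ∈ (toSub h).verts ↔ v ∈ (toSub h').verts := by rw [heq]
          rw [mem_toSub, mem_toSub] at this
          simpa [hr] using this
        by_cases hn : f v = none
        · rw [hn]
          by_contra hc
          exact hverts.2 (Ne.symm hc) hn
        · obtain ⟨u, hu⟩ := Option.ne_none_iff_exists'.1 hn
          have h1 : (toSub h').Adj v u := by
            rw [← heq]; exact Or.inl hu
          rcases h1 with h1 | h1
          · rw [hu, h1]
          · exfalso
            have h2 := hρ v u hu
            have h3 := ih (ρ u) (by omega) u rfl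
            rw [h1] at h3
            have h4 := hρ u v h3
            omega
  funext v
  exact key _ v rfl

/-- parents in a tree -/
theorem exists_parent {W : Type} {K : SimpleGraph W} (hK : K.IsTree) (r' : W) :
    ∃ par : W → Option W, par r' = none ∧ (∀ w, w ≠ r' → par w ≠ none) ∧
      (∀ a b, K.Adj a b ↔ par a = some b ∨ par b = some a) ∧
      ∃ ρ : W → ℕ, ∀ a b, par a = some b → ρ b < ρ a := by
  classical
  have hu := hK.existsUnique_path
  choose P hP hPu using fun w => hu w r'
  have hsnd : ∀ w, w ≠ r' → ∃ u, ∃ hadj : K.Adj w u, P w = Walk.cons hadj (P u) := by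
    intro w hw
    have h0 := hP w
    generalize P w = p at h0
    cases p with
    | nil => exact absurd rfl hw
    | @cons _ u _ hadj q =>
      refine ⟨u, hadj, ?_⟩
      have h1 : q.IsPath := h0.of_cons
      rw [hPu u q h1]
  refine ⟨fun w => if w = r' then none else some (P w).snd, by simp, fun w hw => by simp [hw],
    ?_, ⟨fun w => (P w).length, ?_⟩⟩
  · intro a b
    beta_reduce
    constructor
    · intro hab
      by_cases hb : b ∈ (P a).support
      · left
        have ha : a ≠ r' := by
          rintro rfl
          have h1 : P a = Walk.nil := (hPu a Walk.nil Walk.IsPath.nil).symm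
          rw [h1] at hb
          simp only [Walk.support_nil, List.mem_singleton] at hb
          exact hab.ne hb.symm
        rw [if_neg ha]
        rw [hK.isAcyclic.eq_snd_of_adj_start (hP a) hab hb]
      · right
        have hbr : b ≠ r' := by
          rintro rfl
          exact hb (Walk.end_mem_support _)
        rw [if_neg hbr]
        have h1 : (Walk.cons hab.symm (P a)).IsPath := (hP a).cons hb
        have h2 := hPu b _ h1
        rw [← h2]
        simp
    · intro h
      rcases h with h | h
      · by_cases ha : a = r'
        · rw [if_pos ha] at h; cases h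
        · rw [if_neg ha] at h
          obtain ⟨u, hadj, hp⟩ := hsnd a ha
          have h1 := Option.some.inj h
          rw [hp] at h1
          simp only [Walk.snd_cons] at h1
          rw [← h1]; exact hadj
      · by_cases ha : b = r'
        · rw [if_pos ha] at h; cases h
        · rw [if_neg ha] at h
          obtain ⟨u, hadj, hp⟩ := hsnd b ha
          have h1 := Option.some.inj h
          rw [hp] at h1
          simp only [Walk.snd_cons] at h1
          rw [← h1]; exact hadj.symm
  · intro a b h
    beta_reduce at h
    by_cases ha : a = r'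
    · rw [if_pos ha] at h; cases h
    · rw [if_neg ha] at h
      obtain ⟨u, hadj, hp⟩ := hsnd a ha
      have h1 := Option.some.inj h
      rw [hp] at h1
      simp only [Walk.snd_cons] at h1
      subst h1
      change (P u).length < (P a).length
      rw [hp]
      simp

theorem exists_toSub (T : G.Subgraph) (hT : T.coe.IsTree) (hr : r ∈ T.verts) :
    ∃ (f : V → Option V) (h : IsPF G r f), toSub h = T := by
  classical
  obtain ⟨par, h1, h2, h3, ρ, h4⟩ := exists_parent hT ⟨r, hr⟩
  let f : V → Option V := fun v =>
    if hv : v ∈ T.verts then (par ⟨v, hv⟩).map Subtype.val else none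
  have hf : ∀ v u, f v = some u ↔ ∃ (hv : v ∈ T.verts) (hu : u ∈ T.verts),
      par ⟨v, hv⟩ = some ⟨u, hu⟩ := by
    intro v u
    by_cases hv : v ∈ T.verts
    · simp only [f, dif_pos hv, Option.map_eq_some_iff, hv, exists_true_left]
      constructor
      · rintro ⟨⟨a, ha⟩, h5, rfl⟩
        exact ⟨ha, h5⟩
      · rintro ⟨hu, h5⟩
        exact ⟨_, h5, rfl⟩
    · simp only [f, dif_neg hv]
      constructor
      · intro h; cases h
      · rintro ⟨hv', -⟩; exact absurd hv' hv
  have hmem : ∀ v, (v = r ∨ f v ≠ none) ↔ v ∈ T.verts := by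
    intro v
    constructor
    · rintro (rfl | hv)
      · exact hr
      · obtain ⟨u, hu⟩ := Option.ne_none_iff_exists'.1 hv
        exact ((hf v u).1 hu).1
    · intro hv
      by_cases hvr : v = r
      · exact Or.inl hvr
      · right
        have h5 := h2 ⟨v, hv⟩ (fun h => hvr (congrArg Subtype.val h))
        obtain ⟨⟨u, hu⟩, h6⟩ := Option.ne_none_iff_exists'.1 h5
        rw [(hf v u).2 ⟨hv, hu, h6⟩]
        simp
  have hpf : IsPF G r f := by
    refine ⟨?_, ?_, ?_, ?_⟩
    · simp only [f, dif_pos hr, h1, Option.map_none]
    · intro v u h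
      obtain ⟨hv, hu, h5⟩ := (hf v u).1 h
      have h6 : T.coe.Adj ⟨v, hv⟩ ⟨u, hu⟩ := (h3 _ _).2 (Or.inl h5)
      exact T.adj_sub h6
    · intro v u h
      obtain ⟨hv, hu, h5⟩ := (hf v u).1 h
      exact (hmem u).2 hu
    · refine ⟨fun v => if hv : v ∈ T.verts then ρ ⟨v, hv⟩ else 0, ?_⟩
      intro v u h
      obtain ⟨hv, hu, h5⟩ := (hf v u).1 h
      simp only [dif_pos hv, dif_pos hu]
      exact h4 _ _ h5
  refine ⟨f, hpf, ?_⟩
  apply Subgraph.ext
  · ext v
    exact hmem v
  · funext a b
    apply propext
    change (f a = some b ∨ f b = some a) ↔ T.Adj a b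
    rw [hf, hf]
    constructor
    · rintro (⟨ha, hb, h5⟩ | ⟨hb, ha, h5⟩)
      · exact (h3 ⟨a, ha⟩ ⟨b, hb⟩).2 (Or.inl h5)
      · exact (h3 ⟨a, ha⟩ ⟨b, hb⟩).2 (Or.inr h5)
    · intro hab
      have ha := T.edge_vert hab
      have hb := T.edge_vert hab.symm
      have : T.coe.Adj ⟨a, ha⟩ ⟨b, hb⟩ := hab
      rcases (h3 _ _).1 this with h5 | h5
      · exact Or.inl ⟨ha, hb, h5⟩
      · exact Or.inr ⟨hb, ha, h5⟩

end Pool.Agent.Q261.Subtrees
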